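import Pool.Agent.V11246.Tg

/-!
# A locally compact Hausdorff space with a denumerable remainder but without the remainder `N(∞)`

The space is an infinite discrete space in a symmetric extension of a countable elementary
substructure of the sets of Lean; see the result for the discrete spaces.
-/

namespace Pool.Agent.Results.MP_5ed4ef_gt.NoNInfRemainder

open FirstOrder FirstOrder.Language
open Pool.Agent.Helper672.Plain (LSet)
open Pool.Agent.H635Amen (ZF)
open Pool.Agent.V11246 (DRL)

/-- There is a model of ZF with a locally compact Hausdorff space that has a denumerable
remainder and that does not have the remainder `N(∞)`. -/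
theorem result : ∃ (N : Type 1) (_ : LSet.Structure N), ZF N ∧ ¬ DRL N := by
  obtain ⟨N, hL, hZ, h1, h2⟩ := Pool.Agent.Helper672.ZFA.V246S.exists_s
  exact ⟨N, hL, hZ, h2⟩

end Pool.Agent.Results.MP_5ed4ef_gt.NoNInfRemainder
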